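import Pool.Agent.V1180.Renorm

set_option autoImplicit false

/-! MP_97dcc2_an: distributional supersolutions of `-Δ v + g(v) = 0` are closed under `L^1`
convergence when `g(u_n)` stays bounded in `L^1`. -/

open Set Filter Topology MeasureTheory InnerProductSpace Laplacian
open scoped ContDiff ENNReal

namespace Pool.Agent.Results.MP_97dcc2_an.Closed

open Pool.Agent.V1180

/-- `v, g(v) ∈ L^1(Ω)` and `-Δ v + g(v) ≥ 0` in the sense of distributions in `Ω` -/
def IsSupersolution {N : ℕ} (Ω : Set (EuclideanSpace ℝ (Fin N))) (g : ℝ → ℝ)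
    (v : EuclideanSpace ℝ (Fin N) → ℝ) : Prop :=
  IntegrableOn v Ω ∧ IntegrableOn (fun x => g (v x)) Ω ∧
    ∀ φ : EuclideanSpace ℝ (Fin N) → ℝ, ContDiff ℝ ∞ φ → HasCompactSupport φ →
      tsupport φ ⊆ Ω → (∀ x, 0 ≤ φ x) →
      0 ≤ (∫ x in Ω, v x * (-(Δ φ x))) + ∫ x in Ω, g (v x) * φ x

section Cut

/-- cut-off derivative -/
noncomputable def eta (k : ℕ) (s : ℝ) : ℝ := Real.smoothTransition (k + 1 - s)

/-- concave truncation -/
noncomputable def Phi (k : ℕ) (s : ℝ) : ℝ := ∫ t in (0:ℝ)..s, eta k t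

theorem eta_cont (k : ℕ) : Continuous (eta k) :=
  Real.smoothTransition.continuous.comp (continuous_const.sub continuous_id)

theorem eta_nonneg (k : ℕ) (s : ℝ) : 0 ≤ eta k s := Real.smoothTransition.nonneg _

theorem eta_le_one (k : ℕ) (s : ℝ) : eta k s ≤ 1 := Real.smoothTransition.le_one _

theorem eta_one {k : ℕ} {s : ℝ} (h : s ≤ k) : eta k s = 1 :=
  Real.smoothTransition.one_of_one_le (by linarith)

theorem eta_zero {k : ℕ} {s : ℝ} (h : (k:ℝ) + 1 ≤ s) : eta k s = 0 :=
  Real.smoothTransition.zero_of_nonpos (by linarith)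

theorem eta_anti (k : ℕ) : Antitone (eta k) := fun s t h =>
  Real.smoothTransition.monotone (by linarith)

theorem Phi_deriv (k : ℕ) (s : ℝ) : HasDerivAt (Phi k) (eta k s) s :=
  intervalIntegral.integral_hasDerivAt_right ((eta_cont k).intervalIntegrable _ _)
    ((eta_cont k).stronglyMeasurableAtFilter _ _) (eta_cont k).continuousAt

theorem Phi_smooth (k : ℕ) : ContDiff ℝ ∞ (Phi k) := by
  rw [contDiff_infty_iff_deriv]
  refine ⟨fun s => (Phi_deriv k s).differentiableAt, ?_⟩
  have : deriv (Phi k) = eta k := funext fun s => (Phi_deriv k s).deriv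
  rw [this]
  exact Real.smoothTransition.contDiff.comp (contDiff_const.sub contDiff_id)

theorem Phi_zero (k : ℕ) : Phi k 0 = 0 := by simp [Phi]

theorem Phi_sub (k : ℕ) (s t : ℝ) : Phi k s - Phi k t = ∫ x in t..s, eta k x := by
  unfold Phi
  rw [intervalIntegral.integral_interval_sub_left] <;>
    exact (eta_cont k).intervalIntegrable _ _

theorem Phi_lip (k : ℕ) (s t : ℝ) : |Phi k s - Phi k t| ≤ |s - t| := by
  rw [Phi_sub]
  have := intervalIntegral.norm_integral_le_of_norm_le_const (a := t) (b := s) (f := eta k)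
    (C := 1) (fun x _ => by
      rw [Real.norm_of_nonneg (eta_nonneg k x)]; exact eta_le_one k x)
  simpa using this

theorem Phi_conc (k : ℕ) (s t : ℝ) : Phi k s ≤ Phi k t + eta k t * (s - t) := by
  rcases lt_trichotomy s t with h | h | h
  · obtain ⟨c, hc, hc'⟩ := exists_hasDerivAt_eq_slope (Phi k) (eta k) h
      (Phi_smooth k).continuous.continuousOn (fun x _ => Phi_deriv k x)
    have h1 := eta_anti k hc.2.le
    rw [hc', le_div_iff₀ (by linarith)] at h1
    linarith
  · subst h; simp
  · obtain ⟨c, hc, hc'⟩ := exists_hasDerivAt_eq_slope (Phi k) (eta k) h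
      (Phi_smooth k).continuous.continuousOn (fun x _ => Phi_deriv k x)
    have h1 := eta_anti k hc.1.le
    rw [hc', div_le_iff₀ (by linarith)] at h1
    linarith

theorem Phi_eq {k : ℕ} {s : ℝ} (h : s ≤ k) : Phi k s = s := by
  have h1 : Phi k s = ∫ t in (0:ℝ)..s, (1:ℝ) := by
    apply intervalIntegral.integral_congr
    intro t ht
    apply eta_one
    rw [uIcc] at ht
    exact ht.2.trans (sup_le (Nat.cast_nonneg k) h)
  rw [h1]
  simp

end Cut

variable {E : Type*} [NormedAddCommGroup E] [InnerProductSpace ℝ E] [FiniteDimensional ℝ E]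
  [MeasurableSpace E] [BorelSpace E]

theorem fatou {f : ℕ → E → ℝ} {F : E → ℝ} (hf : ∀ n, Integrable (f n)) {C : ℝ}
    (hC : ∀ n, ∫ x, |f n x| ≤ C) (hae : ∀ᵐ x, Tendsto (fun n => f n x) atTop (𝓝 (F x))) :
    Integrable F := by
  refine ⟨aestronglyMeasurable_of_tendsto_ae _ (fun n => (hf n).aestronglyMeasurable) hae, ?_⟩
  have h1 : ∫⁻ x, ‖F x‖ₑ ≤ liminf (fun n ↦ ∫⁻ x, ‖f n x‖ₑ) atTop :=
    lintegral_congr_ae (by filter_upwards [hae] with x hx using hx.enorm.liminf_eq) ▸
      (MeasureTheory.lintegral_liminf_le' fun n => (hf n).aestronglyMeasurable.enorm)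
  have h2 : ∀ n, ∫⁻ x, ‖f n x‖ₑ ≤ ENNReal.ofReal C := by
    intro n
    rw [← ofReal_integral_norm_eq_lintegral_enorm (hf n)]
    exact ENNReal.ofReal_le_ofReal (hC n)
  have h3 : liminf (fun n ↦ ∫⁻ x, ‖f n x‖ₑ) atTop ≤ ENNReal.ofReal C := by
    refine (liminf_le_liminf (Eventually.of_forall h2)).trans ?_
    simp
  exact lt_of_le_of_lt (h1.trans h3) ENNReal.ofReal_lt_top

/-- the core statement on the whole space, for functions extended by zero -/
theorem core {Ω : Set E} (hΩ : IsOpen Ω) {g : ℝ → ℝ} (hg : Continuous g)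
    (hsign : ∀ t, 0 ≤ g t * t) {w : ℕ → E → ℝ} {W : E → ℝ} (hw : ∀ n, Integrable (w n))
    (hgw : ∀ n, Integrable (fun x => g (w n x))) (hW : Integrable W)
    (hs : ∀ n, Super Ω (w n) (fun x => g (w n x))) {C : ℝ}
    (hC : ∀ n, ∫ x, |g (w n x)| ≤ C) (hlim : Tendsto (fun n => ∫ x, |w n x - W x|) atTop (𝓝 0)) :
    Integrable (fun x => g (W x)) ∧ Super Ω W (fun x => g (W x)) := by
  obtain ⟨ns, hns, hae⟩ := ae_subseq hw hW hlim
  have hlim' : Tendsto (fun n => ∫ x, |w (ns n) x - W x|) atTop (𝓝 0) :=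
    hlim.comp hns.tendsto_atTop
  have hgW : Integrable (fun x => g (W x)) := by
    apply fatou (fun n => hgw (ns n)) (fun n => hC (ns n))
    filter_upwards [hae] with x hx
    exact (hg.tendsto _).comp hx
  refine ⟨hgW, ?_⟩
  intro φ hφ hφc hφs hφ0
  have hΔc := lap_smooth hφ
  obtain ⟨C1, hC1⟩ := (lap_compact hφ hφc).exists_bound_of_continuous hΔc.continuous
  obtain ⟨C2, hC2⟩ := hφc.exists_bound_of_continuous hφ.continuous
  have hφi : Integrable φ := hφ.continuous.integrable_of_hasCompactSupport hφc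
  have hΦi : ∀ {f : E → ℝ} (k : ℕ), Integrable f → Integrable (fun x => Phi k (f x)) := by
    intro f k hf
    apply hf.mono ((Phi_smooth k).continuous.comp_aestronglyMeasurable hf.aestronglyMeasurable)
    refine ae_of_all _ fun x => ?_
    have := Phi_lip k (f x) 0
    rw [Phi_zero] at this
    simpa using this
  have hgneg : ∀ s < 0, g s ≤ 0 := fun s hs => by
    by_contra hcon
    push Not at hcon
    have := hsign s
    nlinarith
  -- upper bound for the cut nonlinearity
  have hM : ∀ k : ℕ, ∃ M : ℝ, 0 ≤ M ∧ ∀ s, eta k s * g s ≤ M := by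
    intro k
    obtain ⟨M, hM⟩ := (isCompact_Icc (a := (0:ℝ)) (b := (k:ℝ) + 1)).exists_bound_of_continuousOn
      hg.continuousOn
    refine ⟨|M|, abs_nonneg _, fun s => ?_⟩
    rcases lt_or_ge s 0 with h | h
    · exact (mul_nonpos_of_nonneg_of_nonpos (eta_nonneg k s) (hgneg s h)).trans (abs_nonneg _)
    · rcases le_or_gt ((k:ℝ) + 1) s with h' | h'
      · rw [eta_zero h', zero_mul]; exact abs_nonneg _
      · have := hM s ⟨h, h'.le⟩
        calc eta k s * g s ≤ |eta k s * g s| := le_abs_self _
          _ = eta k s * |g s| := by rw [abs_mul, abs_of_nonneg (eta_nonneg k s)]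
          _ ≤ 1 * |M| := mul_le_mul (eta_le_one k s) (this.trans (le_abs_self _))
              (abs_nonneg _) zero_le_one
          _ = |M| := one_mul _
  -- step k, m
  have step1 : ∀ k m : ℕ, ∫ x, Phi k (W x) * Δ φ x ≤
      ∫ x, max (eta k (W x) * g (W x)) (-(m:ℝ)) * φ x := by
    intro k m
    obtain ⟨M, hM0, hM⟩ := hM k
    have hcm : Continuous (fun s : ℝ => max (eta k s * g s) (-(m:ℝ))) :=
      ((eta_cont k).mul hg).max continuous_const
    have hbd : ∀ s, |max (eta k s * g s) (-(m:ℝ))| ≤ M + m := by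
      intro s
      have hm : (0:ℝ) ≤ m := Nat.cast_nonneg m
      rw [abs_le]
      constructor
      · have := le_max_right (eta k s * g s) (-(m:ℝ))
        linarith
      · apply max_le <;> linarith [hM s]
    have hi : ∀ {f : E → ℝ}, Integrable f →
        Integrable (fun x => max (eta k (f x) * g (f x)) (-(m:ℝ)) * φ x) := by
      intro f hf
      apply hφi.bdd_mul (c := M + m) (hcm.comp_aestronglyMeasurable hf.aestronglyMeasurable)
      exact ae_of_all _ fun x => hbd _
    have h1 : ∀ n, ∫ x, Phi k (w (ns n) x) * Δ φ x ≤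
        ∫ x, max (eta k (w (ns n) x) * g (w (ns n) x)) (-(m:ℝ)) * φ x := by
      intro n
      refine (renorm hΩ (hw (ns n)) (hgw (ns n)) (hs (ns n)) (Phi_smooth k) (eta_cont k)
        (eta_nonneg k) (eta_le_one k) (Phi_lip k) (Phi_zero k) (Phi_conc k) hφ hφc hφs
        hφ0).trans ?_
      apply integral_mono _ (hi (hw (ns n)))
      · intro x
        exact mul_le_mul_of_nonneg_right (le_max_left _ _) (hφ0 x)
      · have : Integrable (fun x => eta k (w (ns n) x) * g (w (ns n) x)) := by
          apply (hgw (ns n)).bdd_mul (c := 1)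
            ((eta_cont k).comp_aestronglyMeasurable (hw (ns n)).aestronglyMeasurable)
          refine ae_of_all _ fun x => ?_
          rw [Real.norm_of_nonneg (eta_nonneg k _)]
          exact eta_le_one k _
        exact this.mul_bdd (c := C2) hφ.continuous.aestronglyMeasurable (ae_of_all _ hC2)
    have hL : Tendsto (fun n => ∫ x, Phi k (w (ns n) x) * Δ φ x) atTop
        (𝓝 (∫ x, Phi k (W x) * Δ φ x)) := by
      apply tendsto_mul_bdd (fun n => hΦi k (hw (ns n))) (hΦi k hW) _
        hΔc.continuous.aestronglyMeasurable hC1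
      refine squeeze_zero (fun _ => integral_nonneg fun _ => abs_nonneg _) (fun n => ?_) hlim'
      apply integral_mono ((hΦi k (hw (ns n))).sub (hΦi k hW)).abs ((hw (ns n)).sub hW).abs
      intro x
      exact Phi_lip k _ _
    have hR : Tendsto (fun n => ∫ x, max (eta k (w (ns n) x) * g (w (ns n) x)) (-(m:ℝ)) * φ x)
        atTop (𝓝 (∫ x, max (eta k (W x) * g (W x)) (-(m:ℝ)) * φ x)) := by
      apply tendsto_integral_of_dominated_convergence (fun x => (M + m) * φ x)
      · exact fun n => (hi (hw (ns n))).aestronglyMeasurable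
      · exact hφi.const_mul _
      · intro n
        refine ae_of_all _ fun x => ?_
        rw [Real.norm_eq_abs, abs_mul, abs_of_nonneg (hφ0 x)]
        exact mul_le_mul_of_nonneg_right (hbd _) (hφ0 x)
      · filter_upwards [hae] with x hx
        exact ((hcm.tendsto _).comp hx).mul_const _
    exact le_of_tendsto_of_tendsto' hL hR h1
  have hiη : ∀ k : ℕ, Integrable (fun x => eta k (W x) * g (W x) * φ x) := by
    intro k
    have : Integrable (fun x => eta k (W x) * g (W x)) := by
      apply hgW.bdd_mul (c := 1)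
        ((eta_cont k).comp_aestronglyMeasurable hW.aestronglyMeasurable)
      refine ae_of_all _ fun x => ?_
      rw [Real.norm_of_nonneg (eta_nonneg k _)]
      exact eta_le_one k _
    exact this.mul_bdd (c := C2) hφ.continuous.aestronglyMeasurable (ae_of_all _ hC2)
  have step2 : ∀ k : ℕ, ∫ x, Phi k (W x) * Δ φ x ≤ ∫ x, eta k (W x) * g (W x) * φ x := by
    intro k
    have hR : Tendsto (fun m : ℕ => ∫ x, max (eta k (W x) * g (W x)) (-(m:ℝ)) * φ x)
        atTop (𝓝 (∫ x, eta k (W x) * g (W x) * φ x)) := by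
      apply tendsto_integral_of_dominated_convergence (fun x => |eta k (W x) * g (W x) * φ x|)
      · intro m
        have hcm : Continuous (fun s : ℝ => max (eta k s * g s) (-(m:ℝ))) :=
          ((eta_cont k).mul hg).max continuous_const
        exact (hcm.comp_aestronglyMeasurable hW.aestronglyMeasurable).mul
          hφ.continuous.aestronglyMeasurable
      · exact (hiη k).abs
      · intro m
        refine ae_of_all _ fun x => ?_
        rw [Real.norm_eq_abs, abs_mul, abs_mul _ (φ x)]
        apply mul_le_mul_of_nonneg_right _ (abs_nonneg _)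
        have hm : (0:ℝ) ≤ m := Nat.cast_nonneg m
        rw [abs_le]
        constructor
        · exact (neg_abs_le _).trans (le_max_left _ _)
        · exact max_le (le_abs_self _) (by linarith [abs_nonneg (eta k (W x) * g (W x))])
      · refine ae_of_all _ fun x => ?_
        apply tendsto_const_nhds.congr'
        obtain ⟨m0, hm0⟩ := exists_nat_ge (-(eta k (W x) * g (W x)))
        filter_upwards [eventually_ge_atTop m0] with m hm
        have : (m0:ℝ) ≤ m := by exact_mod_cast hm
        rw [max_eq_left]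
        linarith
    exact ge_of_tendsto' hR (step1 k)
  have hL : Tendsto (fun k : ℕ => ∫ x, Phi k (W x) * Δ φ x) atTop (𝓝 (∫ x, W x * Δ φ x)) := by
    apply tendsto_integral_of_dominated_convergence (fun x => |W x| * C1)
    · exact fun k => (hΦi k hW).aestronglyMeasurable.mul hΔc.continuous.aestronglyMeasurable
    · exact hW.abs.mul_const _
    · intro k
      refine ae_of_all _ fun x => ?_
      rw [Real.norm_eq_abs, abs_mul]
      have := Phi_lip k (W x) 0
      rw [Phi_zero, sub_zero, sub_zero] at this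
      exact mul_le_mul this (hC1 x) (abs_nonneg _) (abs_nonneg _)
    · refine ae_of_all _ fun x => ?_
      apply tendsto_const_nhds.congr'
      obtain ⟨k0, hk0⟩ := exists_nat_ge (W x)
      filter_upwards [eventually_ge_atTop k0] with k hk
      have : (k0:ℝ) ≤ k := by exact_mod_cast hk
      rw [Phi_eq (hk0.trans this)]
  have hR : Tendsto (fun k : ℕ => ∫ x, eta k (W x) * g (W x) * φ x) atTop
      (𝓝 (∫ x, g (W x) * φ x)) := by
    apply tendsto_integral_of_dominated_convergence (fun x => |g (W x)| * C2)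
    · exact fun k => (hiη k).aestronglyMeasurable
    · exact hgW.abs.mul_const _
    · intro k
      refine ae_of_all _ fun x => ?_
      rw [Real.norm_eq_abs, abs_mul, abs_mul, abs_of_nonneg (eta_nonneg k _)]
      exact mul_le_mul (mul_le_of_le_one_left (abs_nonneg _) (eta_le_one k _)) (hC2 x)
        (abs_nonneg _) (abs_nonneg _)
    · refine ae_of_all _ fun x => ?_
      apply tendsto_const_nhds.congr'
      obtain ⟨k0, hk0⟩ := exists_nat_ge (W x)
      filter_upwards [eventually_ge_atTop k0] with k hk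
      have : (k0:ℝ) ≤ k := by exact_mod_cast hk
      rw [eta_one (hk0.trans this), one_mul]
  have hfin := le_of_tendsto_of_tendsto' hL hR step2
  have : ∫ x, W x * (-(Δ φ x)) = - ∫ x, W x * Δ φ x := by
    rw [← integral_neg]
    congr 1
    ext x
    ring
  rw [this]
  linarith

theorem result {N : ℕ} (Ω : Set (EuclideanSpace ℝ (Fin N))) (hΩ : IsOpen Ω)
    (g : ℝ → ℝ) (hg : Continuous g) (hsign : ∀ t, 0 ≤ g t * t)
    (u : ℕ → EuclideanSpace ℝ (Fin N) → ℝ) (U : EuclideanSpace ℝ (Fin N) → ℝ)
    (hu : ∀ n, IsSupersolution Ω g (u n))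
    (hbdd : ∃ C : ℝ, ∀ n, ∫ x in Ω, |g (u n x)| ≤ C)
    (hU : IntegrableOn U Ω)
    (hlim : Tendsto (fun n => ∫ x in Ω, |u n x - U x|) atTop (𝓝 0)) :
    IsSupersolution Ω g U := by
  have hm : MeasurableSet Ω := hΩ.measurableSet
  have hg0 : g 0 = 0 := by
    apply le_antisymm
    · have h1 : Tendsto g (𝓝[<] 0) (𝓝 (g 0)) := hg.continuousWithinAt
      apply le_of_tendsto h1
      filter_upwards [self_mem_nhdsWithin] with s hs
      by_contra hcon
      push Not at hcon
      have := hsign s
      have hs' : s < 0 := hs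
      nlinarith
    · have h1 : Tendsto g (𝓝[>] 0) (𝓝 (g 0)) := hg.continuousWithinAt
      apply ge_of_tendsto h1
      filter_upwards [self_mem_nhdsWithin] with s hs
      by_contra hcon
      push Not at hcon
      have := hsign s
      have hs' : 0 < s := hs
      nlinarith
  have hgi : ∀ (v : EuclideanSpace ℝ (Fin N) → ℝ),
      (fun x => g (Ω.indicator v x)) = Ω.indicator (fun x => g (v x)) := by
    intro v
    ext x
    by_cases hx : x ∈ Ω
    · simp [hx]
    · simp [hx, hg0]
  have hmul : ∀ (v b : EuclideanSpace ℝ (Fin N) → ℝ),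
      ∫ x, Ω.indicator v x * b x = ∫ x in Ω, v x * b x := by
    intro v b
    rw [← integral_indicator hm]
    congr 1
    ext x
    by_cases hx : x ∈ Ω <;> simp [hx]
  have hsup : ∀ v : EuclideanSpace ℝ (Fin N) → ℝ,
      (Super Ω (Ω.indicator v) (fun x => g (Ω.indicator v x)) ↔
      ∀ φ : EuclideanSpace ℝ (Fin N) → ℝ, ContDiff ℝ ∞ φ → HasCompactSupport φ →
      tsupport φ ⊆ Ω → (∀ x, 0 ≤ φ x) →
      0 ≤ (∫ x in Ω, v x * (-(Δ φ x))) + ∫ x in Ω, g (v x) * φ x) := by
    intro v
    unfold Super
    have h1 : ∀ φ : EuclideanSpace ℝ (Fin N) → ℝ, ∫ x, Ω.indicator v x * (-(Δ φ x)) =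
        ∫ x in Ω, v x * (-(Δ φ x)) := fun φ => hmul v _
    have h2 : ∀ φ : EuclideanSpace ℝ (Fin N) → ℝ, ∫ x, g (Ω.indicator v x) * φ x =
        ∫ x in Ω, g (v x) * φ x := fun φ => by
      have := hmul (fun x => g (v x)) φ
      rw [← this]
      congr 1
      ext x
      rw [← hgi v]
    simp_rw [h1, h2]
  obtain ⟨C, hC⟩ := hbdd
  have key := core (Ω := Ω) hΩ hg hsign (w := fun n => Ω.indicator (u n)) (W := Ω.indicator U)
    (fun n => (integrable_indicator_iff hm).2 (hu n).1)
    (fun n => by
      rw [hgi]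
      exact (integrable_indicator_iff hm).2 (hu n).2.1)
    ((integrable_indicator_iff hm).2 hU)
    (fun n => (hsup (u n)).2 (hu n).2.2)
    (C := C) (fun n => by
      have : (fun x => |g (Ω.indicator (u n) x)|) = Ω.indicator (fun x => |g (u n x)|) := by
        ext x
        by_cases hx : x ∈ Ω
        · simp [hx]
        · simp [hx, hg0]
      rw [this, integral_indicator hm]
      exact hC n)
    (by
      have : ∀ n, ∫ x, |Ω.indicator (u n) x - Ω.indicator U x| = ∫ x in Ω, |u n x - U x| := by
        intro n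
        rw [← integral_indicator hm]
        congr 1
        ext x
        by_cases hx : x ∈ Ω <;> simp [hx]
      simp_rw [this]
      exact hlim)
  refine ⟨hU, ?_, (hsup U).1 key.2⟩
  have h1 := key.1
  rw [hgi] at h1
  exact (integrable_indicator_iff hm).1 h1

end Pool.Agent.Results.MP_97dcc2_an.Closed
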